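import Mathlib

/-!
# A computable model of quaternions over `ℤ[φ]`

`Q8` is a quaternion `a + b i + c j + d k` whose coordinates `a = a0 + a1 φ`, ... lie in `ℤ[φ]`,
`φ` the golden ratio.
-/

set_option autoImplicit false

namespace Pool.Agent.QU

/-- A quaternion with coordinates in `ℤ[φ]`. -/
structure Q8 where
  a0 : Int
  a1 : Int
  b0 : Int
  b1 : Int
  c0 : Int
  c1 : Int
  d0 : Int
  d1 : Int
deriving DecidableEq

namespace Q8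

def zero : Q8 := ⟨0, 0, 0, 0, 0, 0, 0, 0⟩

def isZero (x : Q8) : Bool :=
  x.a0 == 0 && x.a1 == 0 && x.b0 == 0 && x.b1 == 0 && x.c0 == 0 && x.c1 == 0 &&
    x.d0 == 0 && x.d1 == 0

def smul (n : Int) (x : Q8) : Q8 :=
  ⟨n * x.a0, n * x.a1, n * x.b0, n * x.b1, n * x.c0, n * x.c1, n * x.d0, n * x.d1⟩

def sub (x y : Q8) : Q8 :=
  ⟨x.a0 - y.a0, x.a1 - y.a1, x.b0 - y.b0, x.b1 - y.b1, x.c0 - y.c0, x.c1 - y.c1,
    x.d0 - y.d0, x.d1 - y.d1⟩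

def conj (x : Q8) : Q8 :=
  ⟨x.a0, x.a1, -x.b0, -x.b1, -x.c0, -x.c1, -x.d0, -x.d1⟩

/-- Product; the coordinates multiply in `ℤ[φ]`:
`(p0 + p1 φ)(q0 + q1 φ) = (p0 q0 + p1 q1) + (p0 q1 + p1 q0 + p1 q1) φ`. -/
def mul (x y : Q8) : Q8 :=
  ⟨x.a0 * y.a0 + x.a1 * y.a1 - (x.b0 * y.b0 + x.b1 * y.b1) - (x.c0 * y.c0 + x.c1 * y.c1)
      - (x.d0 * y.d0 + x.d1 * y.d1),
   x.a0 * y.a1 + x.a1 * y.a0 + x.a1 * y.a1 - (x.b0 * y.b1 + x.b1 * y.b0 + x.b1 * y.b1)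
      - (x.c0 * y.c1 + x.c1 * y.c0 + x.c1 * y.c1) - (x.d0 * y.d1 + x.d1 * y.d0 + x.d1 * y.d1),
   x.a0 * y.b0 + x.a1 * y.b1 + (x.b0 * y.a0 + x.b1 * y.a1) + (x.c0 * y.d0 + x.c1 * y.d1)
      - (x.d0 * y.c0 + x.d1 * y.c1),
   x.a0 * y.b1 + x.a1 * y.b0 + x.a1 * y.b1 + (x.b0 * y.a1 + x.b1 * y.a0 + x.b1 * y.a1)
      + (x.c0 * y.d1 + x.c1 * y.d0 + x.c1 * y.d1) - (x.d0 * y.c1 + x.d1 * y.c0 + x.d1 * y.c1),
   x.a0 * y.c0 + x.a1 * y.c1 - (x.b0 * y.d0 + x.b1 * y.d1) + (x.c0 * y.a0 + x.c1 * y.a1)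
      + (x.d0 * y.b0 + x.d1 * y.b1),
   x.a0 * y.c1 + x.a1 * y.c0 + x.a1 * y.c1 - (x.b0 * y.d1 + x.b1 * y.d0 + x.b1 * y.d1)
      + (x.c0 * y.a1 + x.c1 * y.a0 + x.c1 * y.a1) + (x.d0 * y.b1 + x.d1 * y.b0 + x.d1 * y.b1),
   x.a0 * y.d0 + x.a1 * y.d1 + (x.b0 * y.c0 + x.b1 * y.c1) - (x.c0 * y.b0 + x.c1 * y.b1)
      + (x.d0 * y.a0 + x.d1 * y.a1),
   x.a0 * y.d1 + x.a1 * y.d0 + x.a1 * y.d1 + (x.b0 * y.c1 + x.b1 * y.c0 + x.b1 * y.c1)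
      - (x.c0 * y.b1 + x.c1 * y.b0 + x.c1 * y.b1) + (x.d0 * y.a1 + x.d1 * y.a0 + x.d1 * y.a1)⟩

/-- The quaternion `x.conj * x` is the rational integer `n`. -/
def hasNorm (n : Int) (x : Q8) : Bool :=
  (x.a0 * x.a0 + x.a1 * x.a1 + (x.b0 * x.b0 + x.b1 * x.b1) + (x.c0 * x.c0 + x.c1 * x.c1)
      + (x.d0 * x.d0 + x.d1 * x.d1)) == n &&
  (2 * x.a0 * x.a1 + x.a1 * x.a1 + (2 * x.b0 * x.b1 + x.b1 * x.b1)
      + (2 * x.c0 * x.c1 + x.c1 * x.c1) + (2 * x.d0 * x.d1 + x.d1 * x.d1)) == 0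

end Q8

/-- A matrix is given by the list of its columns, a column by the list of its entries. -/
abbrev Col : Type := List Q8

/-- Clears the first entry `y` of a column `y :: Y` by the pivot column `u :: U`; `F` is the list of
the products `x * conj u`, `x` in `U`. -/
def colOp (s : Int) (F : List Q8) : Col → Col
  | [] => []
  | y :: Y =>
    if y.isZero then Y.map (Q8.smul (s * s))
    else List.zipWith (fun f z => Q8.sub (Q8.smul (s * s) z) (Q8.mul f y)) F Y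

/-- The pivots in the first row. The columns in the first list have first entry zero. -/
def goCols (s : Int) (chk : List Col → Bool) : List Col → List Col → Bool
  | _, [] => true
  | _, [] :: _ => false
  | done, (u :: U) :: T =>
    if u.isZero then goCols s chk ((u :: U) :: done) T
    else Q8.hasNorm (s * s) u &&
      (chk ((done ++ T).map (colOp s (U.map fun x => Q8.mul x u.conj))) &&
        goCols s chk done T)

/-- All square submatrices of the matrix with columns `(1/s) cols` have Study determinant `0` or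
`1`. -/
def check : ℕ → Int → List Col → Bool
  | 0, _, _ => true
  | n + 1, s, cols =>
    check n s (cols.map List.tail) && goCols s (check n (s * s * s)) [] cols

/-- Twice the entries: `0`, `1`. -/
def qO : Q8 := ⟨0, 0, 0, 0, 0, 0, 0, 0⟩
def qI : Q8 := ⟨2, 0, 0, 0, 0, 0, 0, 0⟩
/-- `2 t₁ = 1 + i + j + k` -/
def qP : Q8 := ⟨1, 0, 1, 0, 1, 0, 1, 0⟩
/-- `2 t₂ = 1 + i + j - k` -/
def qQ : Q8 := ⟨1, 0, 1, 0, 1, 0, -1, 0⟩
/-- `2 u = 1 - φ i + (1 - φ) j`, `u = (t₂ - t₃)(t₁ - t₃)⁻¹`, `2 t₃ = 1 + φ i + (1 - φ) j` -/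
def qU : Q8 := ⟨1, 0, 0, -1, 1, -1, 0, 0⟩

/-- Twice the columns of the matrix `D`. -/
def colsD : List Col :=
  [[qI, qI, qI, qO, qO],
   [qI, qI, qI, qI, qI],
   [qI, qQ, qP, qI, qI],
   [qI, qQ, qP, qQ, qP],
   [qI, qO, qO, qQ, qP],
   [qO, qU, qI, qO, qO],
   [qO, qO, qO, qU, qI]]

end Pool.Agent.QU
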