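import Pool.Agent.QU.Study
import Pool.Agent.QU.Ico

/-!
# Soundness of the elimination
-/

set_option autoImplicit false

namespace Pool.Agent.QU

open Matrix

/-- The golden ratio. -/
noncomputable def phi : ℝ := Real.goldenRatio

lemma phi_sq : phi ^ 2 = phi + 1 := Real.goldenRatio_sq

/-- The quaternion of an element of the model. -/
noncomputable def emb (x : Q8) : HH :=
  ⟨x.a0 + x.a1 * phi, x.b0 + x.b1 * phi, x.c0 + x.c1 * phi, x.d0 + x.d1 * phi⟩

lemma emb_re (x : Q8) : (emb x).re = x.a0 + x.a1 * phi := rfl
lemma emb_imI (x : Q8) : (emb x).imI = x.b0 + x.b1 * phi := rfl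
lemma emb_imJ (x : Q8) : (emb x).imJ = x.c0 + x.c1 * phi := rfl
lemma emb_imK (x : Q8) : (emb x).imK = x.d0 + x.d1 * phi := rfl

lemma emb_mul (x y : Q8) : emb (x.mul y) = emb x * emb y := by
  have h := phi_sq
  ext
  · rw [Quaternion.re_mul]
    simp only [emb_re, emb_imI, emb_imJ, emb_imK, Q8.mul]
    push_cast
    linear_combination (-(x.a1 * y.a1 : ℝ) + x.b1 * y.b1 + x.c1 * y.c1 + x.d1 * y.d1) * h
  · rw [Quaternion.imI_mul]
    simp only [emb_re, emb_imI, emb_imJ, emb_imK, Q8.mul]
    push_cast
    linear_combination (-(x.a1 * y.b1 : ℝ) - x.b1 * y.a1 - x.c1 * y.d1 + x.d1 * y.c1) * h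
  · rw [Quaternion.imJ_mul]
    simp only [emb_re, emb_imI, emb_imJ, emb_imK, Q8.mul]
    push_cast
    linear_combination (-(x.a1 * y.c1 : ℝ) + x.b1 * y.d1 - x.c1 * y.a1 - x.d1 * y.b1) * h
  · rw [Quaternion.imK_mul]
    simp only [emb_re, emb_imI, emb_imJ, emb_imK, Q8.mul]
    push_cast
    linear_combination (-(x.a1 * y.d1 : ℝ) - x.b1 * y.c1 + x.c1 * y.b1 - x.d1 * y.a1) * h

lemma emb_sub (x y : Q8) : emb (x.sub y) = emb x - emb y := by
  ext <;> simp only [emb_re, emb_imI, emb_imJ, emb_imK, Q8.sub, Quaternion.re_sub,
    Quaternion.imI_sub, Quaternion.imJ_sub, Quaternion.imK_sub] <;> push_cast <;> ring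

lemma emb_smul (n : Int) (x : Q8) : emb (Q8.smul n x) = (n : ℝ) • emb x := by
  ext <;> simp only [emb_re, emb_imI, emb_imJ, emb_imK, Q8.smul, Quaternion.re_smul,
    Quaternion.imI_smul, Quaternion.imJ_smul, Quaternion.imK_smul, smul_eq_mul] <;>
    push_cast <;> ring

lemma emb_conj (x : Q8) : emb x.conj = star (emb x) := by
  ext <;> simp only [emb_re, emb_imI, emb_imJ, emb_imK, Q8.conj, Quaternion.re_star,
    Quaternion.imI_star, Quaternion.imJ_star, Quaternion.imK_star] <;> push_cast <;> ring

lemma emb_eq_zero {x : Q8} (h : x.isZero = true) : emb x = 0 := by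
  simp only [Q8.isZero, Bool.and_eq_true, beq_iff_eq] at h
  obtain ⟨⟨⟨⟨⟨⟨⟨h1, h2⟩, h3⟩, h4⟩, h5⟩, h6⟩, h7⟩, h8⟩ := h
  ext
  · rw [emb_re, h1, h2, Quaternion.re_zero]; simp
  · rw [emb_imI, h3, h4, Quaternion.imI_zero]; simp
  · rw [emb_imJ, h5, h6, Quaternion.imJ_zero]; simp
  · rw [emb_imK, h7, h8, Quaternion.imK_zero]; simp

lemma emb_norm {n : Int} {x : Q8} (h : Q8.hasNorm n x = true) :
    star (emb x) * emb x = ((n : ℝ) : HH) := by
  simp only [Q8.hasNorm, Bool.and_eq_true, beq_iff_eq] at h
  obtain ⟨h1, h2⟩ := h
  have h1' := congrArg (Int.cast : ℤ → ℝ) h1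
  have h2' := congrArg (Int.cast : ℤ → ℝ) h2
  push_cast at h1' h2'
  have hp := phi_sq
  ext
  · rw [Quaternion.re_mul, Quaternion.re_star, Quaternion.imI_star, Quaternion.imJ_star,
      Quaternion.imK_star, Quaternion.re_coe]
    simp only [emb_re, emb_imI, emb_imJ, emb_imK]
    linear_combination h1' + phi * h2' +
      ((x.a1 : ℝ) ^ 2 + (x.b1 : ℝ) ^ 2 + (x.c1 : ℝ) ^ 2 + (x.d1 : ℝ) ^ 2) * hp
  · rw [Quaternion.imI_mul, Quaternion.re_star, Quaternion.imI_star, Quaternion.imJ_star,
      Quaternion.imK_star, Quaternion.imI_coe]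
    simp only [emb_re, emb_imI, emb_imJ, emb_imK]
    ring
  · rw [Quaternion.imJ_mul, Quaternion.re_star, Quaternion.imI_star, Quaternion.imJ_star,
      Quaternion.imK_star, Quaternion.imJ_coe]
    simp only [emb_re, emb_imI, emb_imJ, emb_imK]
    ring
  · rw [Quaternion.imK_mul, Quaternion.re_star, Quaternion.imI_star, Quaternion.imJ_star,
      Quaternion.imK_star, Quaternion.imK_coe]
    simp only [emb_re, emb_imI, emb_imJ, emb_imK]
    ring

/-- The quaternion `(1/s) x`. -/
noncomputable def val (s : Int) (x : Q8) : HH := (s : ℝ)⁻¹ • emb x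

lemma val_eq_zero (s : Int) {x : Q8} (h : x.isZero = true) : val s x = 0 := by
  rw [val, emb_eq_zero h, smul_zero]

lemma val_zero (s : Int) : val s Q8.zero = 0 := val_eq_zero s rfl

lemma val_norm {s : Int} (hs : s ≠ 0) {x : Q8} (h : Q8.hasNorm (s * s) x = true) :
    star (val s x) * val s x = 1 := by
  have hs' : (s : ℝ) ≠ 0 := by exact_mod_cast hs
  rw [val, Quaternion.star_smul, smul_mul_smul_comm, emb_norm h]
  rw [Quaternion.smul_coe]
  have : (s : ℝ)⁻¹ * (s : ℝ)⁻¹ * (((s * s : Int)) : ℝ) = 1 := by
    push_cast
    field_simp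
  rw [this]
  rfl

lemma val_op {s : Int} (hs : s ≠ 0) (u x y z : Q8) :
    val (s * s * s) (Q8.sub (Q8.smul (s * s) z) (Q8.mul (Q8.mul x u.conj) y))
      = val s z - val s x * star (val s u) * val s y := by
  have hs' : (s : ℝ) ≠ 0 := by exact_mod_cast hs
  simp only [val, emb_sub, emb_smul, emb_mul, emb_conj, Quaternion.star_smul,
    smul_mul_assoc, mul_smul_comm, smul_smul, smul_sub]
  push_cast
  congr 2 <;> field_simp

lemma val_op' {s : Int} (hs : s ≠ 0) (z : Q8) :
    val (s * s * s) (Q8.smul (s * s) z) = val s z := by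
  have hs' : (s : ℝ) ≠ 0 := by exact_mod_cast hs
  simp only [val, emb_smul, smul_smul]
  push_cast
  congr 1
  field_simp

/-- `M` is a submatrix of the matrix with columns `(1/s) cols`, with rows `g`. -/
def IsSub (s : Int) (cols : List Col) {k : ℕ} (M : Matrix (Fin k) (Fin k) HH)
    (g : Fin k → ℕ) : Prop :=
  ∀ b, ∃ C ∈ cols, ∀ a, M a b = val s (C.getD (g a) Q8.zero)

lemma sdet_eq_zero_of_col_eq {m : Type*} [Fintype m] [DecidableEq m] {M : Matrix m m HH}
    {i i' : m} (hi : i ≠ i') (h : ∀ j, M j i = M j i') : sdet M = 0 := by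
  unfold sdet
  apply Matrix.det_zero_of_column_eq (i := (i, 0)) (j := (i', 0))
  · intro h'
    exact hi (Prod.ext_iff.1 h').1
  · intro q
    simp [h]

lemma colOp_getD {n : ℕ} {s : Int} (hs : s ≠ 0) (u y : Q8) (U Y : List Q8)
    (hU : U.length = n) (hY : Y.length = n) (i : ℕ) :
    val (s * s * s) ((colOp s (U.map fun x => Q8.mul x u.conj) (y :: Y)).getD i Q8.zero)
      = val s (Y.getD i Q8.zero)
        - val s (U.getD i Q8.zero) * star (val s u) * val s y := by
  unfold colOp
  by_cases hy : y.isZero = true
  · simp only [hy, if_true]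
    rw [val_eq_zero s hy, mul_zero, sub_zero]
    by_cases hi : i < Y.length
    · rw [List.getD_eq_getElem _ _ (by simpa using hi), List.getElem_map,
        List.getD_eq_getElem _ _ hi]
      exact val_op' hs _
    · rw [List.getD_eq_default _ _ (by simpa using hi), List.getD_eq_default _ _ (by simpa using hi),
        val_zero, val_zero]
  · simp only [hy]
    rw [if_neg (by simp)]
    by_cases hi : i < n
    · rw [List.getD_eq_getElem _ _ (by simp [hU, hY, hi]), List.getElem_zipWith,
        List.getElem_map, List.getD_eq_getElem _ _ (by rw [hY]; exact hi),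
        List.getD_eq_getElem _ _ (by rw [hU]; exact hi)]
      exact val_op hs u _ y _
    · rw [List.getD_eq_default _ _ (by simp [hU, hY]; omega),
        List.getD_eq_default _ _ (by omega), List.getD_eq_default _ _ (by omega)]
      simp [val_zero]

lemma goCols_sound {n : ℕ} {s : Int} (hs : s ≠ 0) (chk : List Col → Bool)
    (hchk : ∀ cols : List Col, (∀ C ∈ cols, C.length = n) → chk cols = true →
      ∀ (k : ℕ) (M : Matrix (Fin k) (Fin k) HH) (g : Fin k → ℕ),
        IsSub (s * s * s) cols M g → sdet M = 0 ∨ sdet M = 1)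
    {k : ℕ} (M : Matrix (Fin (k + 1)) (Fin (k + 1)) HH) (g : Fin (k + 1) → ℕ)
    (a0 : Fin (k + 1)) (ha0 : g a0 = 0) (ha : ∀ a, a ≠ a0 → g a ≠ 0)
    (todo : List Col) :
    ∀ done : List Col, (∀ C ∈ done ++ todo, C.length = n + 1) →
      (∀ C ∈ done, val s (C.getD 0 Q8.zero) = 0) → goCols s chk done todo = true →
      IsSub s (done ++ todo) M g → sdet M = 0 ∨ sdet M = 1 := by
  induction todo with
  | nil =>
    intro done _ hd _ hM
    left
    apply sdet_eq_zero_of_row a0
    intro b
    obtain ⟨C, hC, hCb⟩ := hM b
    rw [hCb, ha0]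
    exact hd C (by simpa using hC)
  | cons C T ih =>
    intro done hlen hd hgo hM
    match C, hlen, hgo, hM with
    | [], hlen, _, _ =>
      have := hlen [] (by simp)
      simp at this
    | u :: U, hlen, hgo, hM =>
      unfold goCols at hgo
      by_cases hu : u.isZero = true
      · rw [if_pos hu] at hgo
        apply ih ((u :: U) :: done) _ _ hgo
        · intro b
          obtain ⟨C, hC, hCb⟩ := hM b
          refine ⟨C, ?_, hCb⟩
          simp only [List.mem_append, List.mem_cons] at hC ⊢
          tauto
        · intro C hC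
          apply hlen
          simp only [List.mem_append, List.mem_cons, List.cons_append] at hC ⊢
          tauto
        · intro C hC
          rcases List.mem_cons.1 hC with rfl | hC
          · simpa using val_eq_zero s hu
          · exact hd C hC
      · rw [if_neg hu] at hgo
        simp only [Bool.and_eq_true] at hgo
        obtain ⟨hnorm, hck, hgo'⟩ := hgo
        by_cases hb : ∃ b0, ∀ a, M a b0 = val s ((u :: U).getD (g a) Q8.zero)
        · obtain ⟨b0, hb0⟩ := hb
          by_cases hb1 : ∃ b1, b1 ≠ b0 ∧ ∀ a, M a b1 = val s ((u :: U).getD (g a) Q8.zero)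
          · obtain ⟨b1, hne, hb1⟩ := hb1
            left
            apply sdet_eq_zero_of_col_eq hne
            intro a
            rw [hb0, hb1]
          · have hUl : U.length = n := by
              have := hlen (u :: U) (by simp)
              simpa using this
            have hpiv : M a0 b0 = val s u := by
              rw [hb0, ha0]
              rfl
            rw [sdet_pivot M a0 b0 (by rw [hpiv]; exact val_norm hs hnorm)]
            apply hchk _ _ hck k _ (fun a => g (a0.succAbove a) - 1)
            · intro b
              obtain ⟨C, hC, hCb⟩ := hM (b0.succAbove b)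
              have hC' : C ∈ done ++ T := by
                rcases List.mem_append.1 hC with h | h
                · exact List.mem_append.2 (Or.inl h)
                · rcases List.mem_cons.1 h with h | h
                  · exfalso
                    apply hb1
                    refine ⟨b0.succAbove b, Fin.succAbove_ne b0 b, ?_⟩
                    rw [← h]
                    exact hCb
                  · exact List.mem_append.2 (Or.inr h)
              refine ⟨_, List.mem_map_of_mem hC', ?_⟩
              intro a
              have hCl := hlen C hC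
              match C, hCl, hCb with
              | y :: Y, hCl, hCb =>
                rw [colOp_getD hs u y U Y hUl (by simpa using hCl)]
                have hga : g (a0.succAbove a) ≠ 0 := ha _ (Fin.succAbove_ne a0 a)
                obtain ⟨i, hi⟩ := Nat.exists_eq_succ_of_ne_zero hga
                rw [Matrix.of_apply, hpiv, hb0, hCb, hCb, ha0]
                simp only [hi]
                simp
            · intro C hC
              obtain ⟨C', hC', rfl⟩ := List.mem_map.1 hC
              have hCl : C'.length = n + 1 := by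
                apply hlen
                simp only [List.mem_append, List.mem_cons] at hC' ⊢
                tauto
              match C', hCl with
              | y :: Y, hCl =>
                have hYl : Y.length = n := by simpa using hCl
                simp only [colOp]
                split_ifs <;> simp [hUl, hYl]
        · apply ih done _ hd hgo'
          · intro b
            obtain ⟨C, hC, hCb⟩ := hM b
            refine ⟨C, ?_, hCb⟩
            rcases List.mem_append.1 hC with h | h
            · exact List.mem_append.2 (Or.inl h)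
            · rcases List.mem_cons.1 h with h | h
              · exfalso
                apply hb
                refine ⟨b, ?_⟩
                rw [← h]
                exact hCb
              · exact List.mem_append.2 (Or.inr h)
          · intro C hC
            apply hlen
            simp only [List.mem_append, List.mem_cons] at hC ⊢
            tauto

theorem check_sound (n : ℕ) : ∀ (s : Int) (_ : s ≠ 0) (cols : List Col),
    (∀ C ∈ cols, C.length = n) → check n s cols = true →
      ∀ (k : ℕ) (M : Matrix (Fin k) (Fin k) HH) (g : Fin k → ℕ),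
        IsSub s cols M g → sdet M = 0 ∨ sdet M = 1 := by
  induction n with
  | zero =>
    intro s hs cols hlen _ k M g hM
    rcases Nat.eq_zero_or_pos k with rfl | hk
    · right
      unfold sdet
      exact Matrix.det_isEmpty
    · left
      apply sdet_eq_zero_of_row (⟨0, hk⟩ : Fin k)
      intro b
      obtain ⟨C, hC, hCb⟩ := hM b
      have : C = [] := List.length_eq_zero_iff.1 (hlen C hC)
      rw [hCb, this]
      simp [val_zero]
  | succ n ih =>
    intro s hs cols hlen hck k M g hM
    unfold check at hck
    rw [Bool.and_eq_true] at hck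
    by_cases h0 : ∃ a0, g a0 = 0
    · obtain ⟨a0, ha0⟩ := h0
      by_cases h1 : ∃ a1, a1 ≠ a0 ∧ g a1 = 0
      · obtain ⟨a1, hne, ha1⟩ := h1
        left
        apply sdet_eq_zero_of_row_eq hne
        intro b
        obtain ⟨C, hC, hCb⟩ := hM b
        rw [hCb, hCb, ha0, ha1]
      · obtain ⟨k', rfl⟩ : ∃ k', k = k' + 1 := Nat.exists_eq_succ_of_ne_zero (by
          rintro rfl
          exact a0.elim0)
        exact goCols_sound (n := n) hs (check n (s * s * s))
          (fun cols' hl hc k M g hM =>
            ih (s * s * s) (mul_ne_zero (mul_ne_zero hs hs) hs) cols' hl hc k M g hM)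
          M g a0 ha0 (fun a hane hga => h1 ⟨a, hane, hga⟩) cols [] (by simpa using hlen)
          (by simp) hck.2 (by simpa using hM)
    · apply ih s hs (cols.map List.tail) _ hck.1 k M (fun a => g a - 1)
      · intro b
        obtain ⟨C, hC, hCb⟩ := hM b
        refine ⟨C.tail, List.mem_map_of_mem hC, ?_⟩
        intro a
        have hga : g a ≠ 0 := fun h => h0 ⟨a, h⟩
        obtain ⟨i, hi⟩ := Nat.exists_eq_succ_of_ne_zero hga
        rw [hCb]
        simp only [hi]
        cases C <;> simp
      · intro C hC
        obtain ⟨C', hC', rfl⟩ := List.mem_map.1 hC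
        rw [List.length_tail, hlen C' hC']
        rfl

end Pool.Agent.QU
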