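import Mathlib

/-!
# The commutative side: three distinct roots of `x² - x + 1`
-/

set_option autoImplicit false

namespace Pool.Agent.QU

open Matrix

section
variable {F : Type*} [Field F]

lemma isUnit_scale {r m k : ℕ} (X : Matrix (Fin r) (Fin m) F) (ρ : Fin r → F) (κ : Fin m → F)
    (hρ : ∀ i, ρ i ≠ 0) (hκ : ∀ j, κ j ≠ 0) (g : Fin k → Fin r) (h : Fin k → Fin m) :
    IsUnit ((Matrix.of fun i j => ρ i * X i j * κ j).submatrix g h) ↔ IsUnit (X.submatrix g h) := by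
  have : (Matrix.of fun i j => ρ i * X i j * κ j).submatrix g h
      = Matrix.diagonal (ρ ∘ g) * X.submatrix g h * Matrix.diagonal (κ ∘ h) := by
    ext1 p q
    simp [Matrix.diagonal_mul, Matrix.mul_diagonal]
  rw [this, Matrix.isUnit_iff_isUnit_det, Matrix.isUnit_iff_isUnit_det, Matrix.det_mul,
    Matrix.det_mul, isUnit_iff_ne_zero, isUnit_iff_ne_zero, Matrix.det_diagonal,
    Matrix.det_diagonal]
  have h1 : ∏ i, (ρ ∘ g) i ≠ 0 := Finset.prod_ne_zero_iff.2 fun i _ => hρ _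
  have h2 : ∏ i, (κ ∘ h) i ≠ 0 := Finset.prod_ne_zero_iff.2 fun i _ => hκ _
  constructor
  · intro h3 h4
    exact h3 (by rw [h4]; ring)
  · intro h3
    exact mul_ne_zero (mul_ne_zero h1 h3) h2

lemma det4 (a b w z : F) :
    (!![1, a, w, 0; 1, b, 1, 0; 1, a, 0, z; 1, b, 0, 1] : Matrix (Fin 4) (Fin 4) F).det
      = -((w - z) * (b - a)) := by
  have e12 : Fin.succAbove (1 : Fin 4) (2 : Fin 3) = 3 := rfl
  have e22 : Fin.succAbove (2 : Fin 4) (2 : Fin 3) = 3 := rfl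
  simp [Matrix.det_succ_row_zero, Fin.sum_univ_succ, e12, e22]
  ring

lemma det5 (a b w z : F) :
    (!![1, 1, 1, 0, 0; 1, 0, a, w, 0; 1, 0, b, 1, 0; 0, a, 1, 0, z; 0, b, 1, 0, 1] :
      Matrix (Fin 5) (Fin 5) F).det
      = -((1 - w) * (a - z * b) - (a - w * b) * (a - z * b) - (1 - w) * (1 - z)) := by
  have e12 : Fin.succAbove (1 : Fin 4) (2 : Fin 3) = 3 := rfl
  have e22 : Fin.succAbove (2 : Fin 4) (2 : Fin 3) = 3 := rfl
  have f12 : Fin.succAbove (1 : Fin 5) (2 : Fin 4) = 3 := rfl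
  have f13 : Fin.succAbove (1 : Fin 5) (3 : Fin 4) = 4 := rfl
  have f22 : Fin.succAbove (2 : Fin 5) (2 : Fin 4) = 3 := rfl
  have f23 : Fin.succAbove (2 : Fin 5) (3 : Fin 4) = 4 := rfl
  have f32 : Fin.succAbove (3 : Fin 5) (2 : Fin 4) = 2 := rfl
  have f33 : Fin.succAbove (3 : Fin 5) (3 : Fin 4) = 4 := rfl
  simp [Matrix.det_succ_row_zero, Fin.sum_univ_succ, e12, e22, f12, f13, f22, f23, f32, f33]
  ring

/-- The contradiction over a field, for normalised entries. -/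
lemma three_roots (p1 p2 w z : F) (hne : p1 ≠ p2) (hw : w ≠ 0)
    (h1 : p1 ^ 2 - p1 + 1 = 0) (h2 : p2 ^ 2 - p2 + 1 = 0)
    (h3 : (w - z) * (p1 - p2) = 0)
    (h4 : (1 - w) * (p2 - z * p1) - (p2 - w * p1) * (p2 - z * p1) - (1 - w) * (1 - z) = 0) :
    False := by
  have hd : p1 - p2 ≠ 0 := sub_ne_zero.2 hne
  have hz : z = w := by
    rcases mul_eq_zero.1 h3 with h | h
    · exact (sub_eq_zero.1 h).symm
    · exact absurd h hd
  subst hz
  have hs : p1 + p2 = 1 := by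
    have : (p1 - p2) * (p1 + p2 - 1) = 0 := by linear_combination h1 - h2
    rcases mul_eq_zero.1 this with h | h
    · exact absurd h hd
    · exact sub_eq_zero.1 h
  have hp2 : p2 = 1 - p1 := by linear_combination hs
  have : z * (p1 - p2) ^ 2 = 0 := by
    subst hp2
    linear_combination (-1) * h4 + (-1 + 2 * z - z ^ 2) * h1
  rcases mul_eq_zero.1 this with h | h
  · exact hw h
  · exact hd (pow_eq_zero_iff (two_ne_zero) |>.1 h)

end

end Pool.Agent.QU
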