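import Mathlib

/-!
# Invertible column selections of `[I ∣ D]` and invertible square submatrices of `D`
-/

set_option autoImplicit false

namespace Pool.Agent.QU

open Matrix

section ring
variable {R : Type*} [Ring R]

lemma isUnit_fromBlocks {m n : Type*} [Fintype m] [Fintype n] [DecidableEq m] [DecidableEq n]
    (A : Matrix m m R) (C : Matrix n m R) :
    IsUnit (Matrix.fromBlocks A 0 C (1 : Matrix n n R)) ↔ IsUnit A := by
  constructor
  · rintro ⟨⟨M, N, hMN, hNM⟩, hM⟩
    simp only at hM
    subst hM
    rw [← Matrix.fromBlocks_toBlocks N, Matrix.fromBlocks_multiply, ← Matrix.fromBlocks_one,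
      Matrix.fromBlocks_inj] at hMN hNM
    simp only [Matrix.zero_mul, add_zero, Matrix.mul_one, Matrix.mul_zero, zero_add] at hMN hNM
    refine ⟨⟨A, N.toBlocks₁₁, hMN.1, ?_⟩, rfl⟩
    have h := hNM.1
    rw [hNM.2.1, Matrix.zero_mul, add_zero] at h
    exact h
  · rintro ⟨⟨A, A', h1, h2⟩, rfl⟩
    refine ⟨⟨Matrix.fromBlocks A 0 C 1, Matrix.fromBlocks A' 0 (-(C * A')) 1, ?_, ?_⟩, rfl⟩
    · rw [Matrix.fromBlocks_multiply, ← Matrix.fromBlocks_one, Matrix.fromBlocks_inj]
      refine ⟨by simp [h1], by simp, by simp, by simp⟩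
    · rw [Matrix.fromBlocks_multiply, ← Matrix.fromBlocks_one, Matrix.fromBlocks_inj]
      refine ⟨by simp [h2], by simp, ?_, by simp⟩
      simp [Matrix.mul_assoc, h2]

lemma isUnit_reindex {m n : Type*} [Fintype m] [Fintype n] [DecidableEq m] [DecidableEq n]
    (M : Matrix m m R) (e : n ≃ m) : IsUnit (M.submatrix e e) ↔ IsUnit M := by
  constructor
  · rintro ⟨⟨A, B, h1, h2⟩, h⟩
    simp only at h
    subst h
    refine ⟨⟨M, B.submatrix e.symm e.symm, ?_, ?_⟩, rfl⟩
    · have := congrArg (fun N => N.submatrix e.symm e.symm) h1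
      simpa [← Matrix.submatrix_mul_equiv _ _ _ e.symm] using this
    · have := congrArg (fun N => N.submatrix e.symm e.symm) h2
      simpa [← Matrix.submatrix_mul_equiv _ _ _ e.symm] using this
  · rintro ⟨⟨A, B, h1, h2⟩, rfl⟩
    refine ⟨⟨_, B.submatrix e e, ?_, ?_⟩, rfl⟩
    · show A.submatrix e e * B.submatrix e e = 1
      rw [Matrix.submatrix_mul_equiv, h1, Matrix.submatrix_one_equiv]
    · show B.submatrix e e * A.submatrix e e = 1
      rw [Matrix.submatrix_mul_equiv, h2, Matrix.submatrix_one_equiv]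

end ring

/-- The selection of columns of `[I ∣ D]` that belongs to the square submatrix `D[g, h]`. -/
noncomputable def sel {r m k : ℕ} (g : Fin k → Fin r) (h : Fin k → Fin m) :
    Fin r → Fin r ⊕ Fin m := by
  classical
  exact fun i => if hi : ∃ p, g p = i then Sum.inr (h hi.choose) else Sum.inl i

/-- For an injective `g`, the submatrix `D[g, h]` is invertible iff the selection `sel g h` of
columns of `[I ∣ D]` is. -/
lemma isUnit_sel {R : Type*} [Ring R] {r m k : ℕ} (D : Matrix (Fin r) (Fin m) R)
    (g : Fin k → Fin r) (hg : Function.Injective g) (h : Fin k → Fin m) :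
    IsUnit ((Matrix.fromCols (1 : Matrix (Fin r) (Fin r) R) D).submatrix id (sel g h))
      ↔ IsUnit (D.submatrix g h) := by
  classical
  let e : Fin k ⊕ {i : Fin r // i ∉ Set.range g} ≃ Fin r :=
    ((Equiv.ofInjective g hg).sumCongr (Equiv.refl _)).trans (Equiv.Set.sumCompl (Set.range g))
  have e1 : ∀ p, e (Sum.inl p) = g p := fun p => rfl
  have e2 : ∀ p, e (Sum.inr p) = p.1 := fun p => rfl
  have s1 : ∀ p, sel g h (g p) = Sum.inr (h p) := by
    intro p
    have hi : ∃ q, g q = g p := ⟨p, rfl⟩
    unfold sel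
    rw [dif_pos hi]
    have := hi.choose_spec
    rw [hg this]
  have s2 : ∀ p : {i : Fin r // i ∉ Set.range g}, sel g h p.1 = Sum.inl p.1 := by
    intro p
    unfold sel
    rw [dif_neg]
    exact p.2
  rw [← isUnit_reindex _ e]
  have : ((Matrix.fromCols (1 : Matrix (Fin r) (Fin r) R) D).submatrix id (sel g h)).submatrix e e
      = Matrix.fromBlocks (D.submatrix g h) 0 (D.submatrix (fun p => p.1) h)
        (1 : Matrix {i : Fin r // i ∉ Set.range g} {i : Fin r // i ∉ Set.range g} R) := by
    ext1 p q
    rcases p with p | p <;> rcases q with q | q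
    · simp [e1, s1]
    · simp only [Matrix.submatrix_apply, e1, e2, s2, Matrix.fromCols_apply_inl, id,
        Matrix.fromBlocks_apply₁₂, Matrix.zero_apply]
      rw [Matrix.one_apply_ne]
      intro h'
      exact q.2 ⟨p, h'⟩
    · simp [e1, e2, s1]
    · simp only [Matrix.submatrix_apply, e2, s2, Matrix.fromCols_apply_inl, id,
        Matrix.fromBlocks_apply₂₂]
      by_cases h' : p = q
      · subst h'
        simp
      · rw [Matrix.one_apply_ne h', Matrix.one_apply_ne]
        intro h''
        exact h' (Subtype.ext h'')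
  rw [this, isUnit_fromBlocks]

/-- If `E` has the same invertible column selections as `[I ∣ D]` then, after a change of basis,
the square submatrices of `D` are invertible iff those of a matrix `X` over the field are. -/
lemma exists_standard {H F : Type*} [Ring H] [Field F] {r m : ℕ} (D : Matrix (Fin r) (Fin m) H)
    (E : Matrix (Fin r) (Fin r ⊕ Fin m) F)
    (hE : ∀ f : Fin r → Fin r ⊕ Fin m,
      (IsUnit ((Matrix.fromCols (1 : Matrix (Fin r) (Fin r) H) D).submatrix id f)
        ↔ IsUnit (E.submatrix id f))) :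
    ∃ X : Matrix (Fin r) (Fin m) F, ∀ (k : ℕ) (g : Fin k → Fin r) (h : Fin k → Fin m),
      Function.Injective g → (IsUnit (D.submatrix g h) ↔ IsUnit (X.submatrix g h)) := by
  have hP : IsUnit (E.submatrix id Sum.inl) := by
    rw [← hE]
    have : (Matrix.fromCols (1 : Matrix (Fin r) (Fin r) H) D).submatrix id Sum.inl = 1 := by
      ext1 p q
      simp
    rw [this]
    exact isUnit_one
  obtain ⟨⟨P, P', h1, h2⟩, hPe⟩ := hP
  simp only at hPe
  refine ⟨P' * E.submatrix id Sum.inr, fun k g h hg => ?_⟩
  rw [← isUnit_sel D g hg h, ← isUnit_sel _ g hg h, hE]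
  have : (Matrix.fromCols (1 : Matrix (Fin r) (Fin r) F) (P' * E.submatrix id Sum.inr)).submatrix id
      (sel g h) = P' * E.submatrix id (sel g h) := by
    have h3 : Matrix.fromCols (1 : Matrix (Fin r) (Fin r) F) (P' * E.submatrix id Sum.inr)
        = P' * E := by
      ext1 p q
      rcases q with q | q
      · have := congrFun (congrFun h2 p) q
        simp only [Matrix.fromCols_apply_inl]
        rw [← this, hPe]
        rfl
      · simp only [Matrix.fromCols_apply_inr]
        rfl
    rw [h3]
    rfl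
  rw [this]
  exact (Units.isUnit_units_mul (⟨P', P, h2, h1⟩ : (Matrix (Fin r) (Fin r) F)ˣ) _).symm

end Pool.Agent.QU
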