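import Pool.Agent.QU.Check
import Pool.Agent.QU.Minor
import Pool.Agent.QU.FieldSide

/-!
# The matrix `D`
-/

set_option autoImplicit false

namespace Pool.Agent.QU

open Matrix

/-- The `5 × 7` quaternion matrix. -/
noncomputable def matD : Matrix (Fin 5) (Fin 7) HH :=
  Matrix.of fun i j => val 2 ((colsD.getD j []).getD i Q8.zero)

theorem check_colsD : check 5 2 colsD = true := by decide +kernel

theorem sdet_matD (k : ℕ) (g : Fin k → Fin 5) (h : Fin k → Fin 7) :
    sdet (matD.submatrix g h) = 0 ∨ sdet (matD.submatrix g h) = 1 := by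
  apply check_sound 5 2 (by norm_num) colsD (by decide) check_colsD k _ (fun a => (g a : ℕ))
  intro b
  refine ⟨colsD.getD (h b) [], ?_, ?_⟩
  · have : ((h b : Fin 7) : ℕ) < colsD.length := (h b).2
    rw [List.getD_eq_getElem _ _ this]
    exact List.getElem_mem this
  · intro a
    rfl

noncomputable def t1 : HH := val 2 qP
noncomputable def t2 : HH := val 2 qQ
noncomputable def uu : HH := val 2 qU

lemma val_qO : val 2 qO = 0 := val_zero 2

lemma val_qI : val 2 qI = 1 := by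
  ext
  · simp [val, qI, emb_re, Quaternion.re_smul, Quaternion.re_one]
  · simp [val, qI, emb_imI, Quaternion.imI_smul, Quaternion.imI_one]
  · simp [val, qI, emb_imJ, Quaternion.imJ_smul, Quaternion.imJ_one]
  · simp [val, qI, emb_imK, Quaternion.imK_smul, Quaternion.imK_one]

lemma matD_eq : matD = !![1, 1, 1, 1, 1, 0, 0;
                          1, 1, t2, t2, 0, uu, 0;
                          1, 1, t1, t1, 0, 1, 0;
                          0, 1, 1, t2, t2, 0, uu;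
                          0, 1, 1, t1, t1, 0, 1] := by
  have h : matD = !![val 2 qI, val 2 qI, val 2 qI, val 2 qI, val 2 qI, val 2 qO, val 2 qO;
                     val 2 qI, val 2 qI, t2, t2, val 2 qO, uu, val 2 qO;
                     val 2 qI, val 2 qI, t1, t1, val 2 qO, val 2 qI, val 2 qO;
                     val 2 qO, val 2 qI, val 2 qI, t2, t2, val 2 qO, uu;
                     val 2 qO, val 2 qI, val 2 qI, t1, t1, val 2 qO, val 2 qI] := by
    ext1 i j
    fin_cases i <;> fin_cases j <;> rfl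
  rw [h, val_qO, val_qI]

/-- Equality of products in the model gives equality of quaternions. -/
lemma sq_eq {x : Q8} (h : (Q8.mul x x) = Q8.sub (Q8.smul 2 x) (Q8.smul 2 qI)) :
    val 2 x * val 2 x = val 2 x - 1 := by
  have h1 := congrArg emb h
  rw [emb_mul, emb_sub, emb_smul, emb_smul] at h1
  rw [← val_qI]
  simp only [val, smul_mul_assoc, mul_smul_comm, smul_smul, h1, smul_sub]
  norm_num

lemma t1_sq : t1 * t1 = t1 - 1 := sq_eq (by decide)
lemma t2_sq : t2 * t2 = t2 - 1 := sq_eq (by decide)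
lemma uu_sq : uu * uu = uu - 1 := sq_eq (by decide)

/-- `2 t₃ = 1 + φ i + (1 - φ) j` -/
def qR : Q8 := ⟨1, 0, 0, 1, 1, -1, 0, 0⟩

noncomputable def t3 : HH := val 2 qR

lemma t3_sq : t3 * t3 = t3 - 1 := sq_eq (by decide)

lemma t3_eq : t3 = uu * t2 + (1 - uu) * t1 := by
  have h : Q8.smul 2 qR
      = Q8.sub (Q8.mul qU qQ) (Q8.mul (Q8.sub qU qI) qP) := by decide
  have h1 := congrArg emb h
  rw [emb_sub, emb_smul, emb_mul, emb_mul, emb_sub] at h1
  have h2 : t3 = ((2:ℝ)⁻¹ * (2:ℝ)⁻¹) • (((2 : Int) : ℝ) • emb qR) := by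
    rw [t3, val, smul_smul]
    norm_num
  rw [h2, h1, ← val_qI]
  simp only [t1, t2, uu, val, smul_mul_assoc, mul_smul_comm, smul_smul, ← smul_sub, ← smul_add]
  norm_num
  rw [sub_mul, sub_mul, ← smul_add]
  congr 1
  abel

/-! ### Invertible and singular submatrices -/

lemma not_isUnit_col {k : ℕ} {M : Matrix (Fin k) (Fin k) HH} (i j : Fin k) (hi : i ≠ j)
    (h : ∀ a, M a i = M a j) : ¬ IsUnit M := fun hu =>
  sdet_ne_zero_of_isUnit hu (sdet_eq_zero_of_col_eq hi h)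

lemma not_isUnit_row {k : ℕ} {M : Matrix (Fin k) (Fin k) HH} (i j : Fin k) (hi : i ≠ j)
    (h : ∀ a, M i a = M j a) : ¬ IsUnit M := fun hu =>
  sdet_ne_zero_of_isUnit hu (sdet_eq_zero_of_row_eq hi h)

lemma not_isUnit_left {k : ℕ} {M : Matrix (Fin k) (Fin k) HH} (w : Fin k → HH) (i : Fin k)
    (hi : w i ≠ 0) (h : ∀ j, ∑ a, w a * M a j = 0) : ¬ IsUnit M := by
  rintro ⟨⟨M, N, h1, h2⟩, rfl⟩
  apply hi
  have h3 : Matrix.vecMul w (M * N) = 0 := by
    rw [← Matrix.vecMul_vecMul]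
    have : Matrix.vecMul w M = 0 := by
      funext j
      exact h j
    rw [this, Matrix.zero_vecMul]
  rw [h1, Matrix.vecMul_one] at h3
  rw [h3]
  rfl

lemma isUnit_one_one {x : HH} (hx : x ≠ 0) {M : Matrix (Fin 1) (Fin 1) HH} (hM : M 0 0 = x) :
    IsUnit M := by
  refine ⟨⟨M, Matrix.of fun _ _ => x⁻¹, ?_, ?_⟩, rfl⟩
  · ext1 i j
    rw [Matrix.mul_apply, Fin.sum_univ_one]
    fin_cases i
    fin_cases j
    simp [hM, hx]
  · ext1 i j
    rw [Matrix.mul_apply, Fin.sum_univ_one]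
    fin_cases i
    fin_cases j
    simp [hM, hx]

lemma uu_ne : uu ≠ 0 := by
  intro h
  have := uu_sq
  rw [h] at this
  simp at this

lemma t12_ne : t1 - t2 ≠ 0 := by
  intro h
  have := congrArg (fun x : HH => x.imK) h
  simp [t1, t2, val, qP, qQ, emb_imK, Quaternion.imK_sub, Quaternion.imK_smul,
    Quaternion.imK_zero] at this

/-- `det (x₁₂ ; e₂, f)`. -/
lemma isUnit_two : IsUnit (matD.submatrix ![1, 2] ![0, 2]) := by
  have hd := t12_ne
  set d := (t1 - t2)⁻¹ with hdd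
  have h1 : (t1 - t2) * d = 1 := mul_inv_cancel₀ hd
  have h2 : d * (t1 - t2) = 1 := inv_mul_cancel₀ hd
  rw [sub_mul] at h1
  rw [mul_sub] at h2
  have hM : matD.submatrix ![1, 2] ![0, 2] = !![1, t2; 1, t1] := by
    rw [matD_eq]
    ext1 i j
    fin_cases i <;> fin_cases j <;> rfl
  refine ⟨⟨matD.submatrix ![1, 2] ![0, 2], !![1 + t2 * d, -(t2 * d); -d, d], ?_, ?_⟩, rfl⟩
  · rw [hM, Matrix.mul_fin_two, Matrix.one_fin_two]
    have h1' : t1 * d = 1 + t2 * d := by rw [← h1]; abel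
    ext1 i j
    fin_cases i <;> fin_cases j <;> simp [h1']
  · rw [hM, Matrix.mul_fin_two, Matrix.one_fin_two]
    have h2' : d * t1 = 1 + d * t2 := by rw [← h2]; abel
    ext1 i j
    fin_cases i <;> fin_cases j
    · simp
    · simp [add_mul, mul_assoc, h2', mul_add]
    · simp
    · simp [h2']

/-- The 3-point condition. -/
lemma not_isUnit_three {t : HH} (ht : t * t = t - 1) {M : Matrix (Fin 3) (Fin 3) HH}
    (hM : M = !![1, 1, 1; 1, 0, t; 0, t, 1]) : ¬ IsUnit M := by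
  apply not_isUnit_left ![-1, 1, 1 - t] 1 (by simp)
  intro j
  rw [hM, Fin.sum_univ_three]
  fin_cases j
  · simp
  · simp [sub_mul, ht]
  · simp

lemma not_isUnit_four {M : Matrix (Fin 4) (Fin 4) HH}
    (hM : M = !![1, t2, uu, 0; 1, t1, 1, 0; 1, t2, 0, uu; 1, t1, 0, 1]) : ¬ IsUnit M := by
  apply not_isUnit_left ![1, -uu, -1, uu] 0 (by simp)
  intro j
  rw [hM, Fin.sum_univ_four]
  fin_cases j <;> simp

lemma not_isUnit_five {M : Matrix (Fin 5) (Fin 5) HH}
    (hM : M = !![1, 1, 1, 0, 0; 1, 0, t2, uu, 0; 1, 0, t1, 1, 0; 0, t2, 1, 0, uu;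
      0, t1, 1, 0, 1]) : ¬ IsUnit M := by
  have hu := uu_sq
  have h3 := t3_sq
  have he := t3_eq
  -- `λ = u`, `μ = (1 - t₃) u`
  have k2 : (1 - t3) * t3 = 1 := by rw [sub_mul, one_mul, h3]; abel
  have k3 : uu * t2 - uu * uu * t1 = t3 := by rw [hu, he]; noncomm_ring
  have k1' : uu - uu * uu = 1 := by rw [hu]; abel
  apply not_isUnit_left ![-1, uu, -(uu * uu), (1 - t3) * uu, -((1 - t3) * uu * uu)] 0 (by simp)
  intro j
  rw [hM, Fin.sum_univ_five]
  fin_cases j
  · show -1 * 1 + uu * 1 + -(uu * uu) * 1 + (1 - t3) * uu * 0 + -((1 - t3) * uu * uu) * 0 = 0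
    rw [hu]; noncomm_ring
  · show -1 * 1 + uu * 0 + -(uu * uu) * 0 + (1 - t3) * uu * t2 + -((1 - t3) * uu * uu) * t1 = 0
    have : (1 - t3) * uu * t2 + -((1 - t3) * uu * uu) * t1
        = (1 - t3) * (uu * t2 - uu * uu * t1) := by noncomm_ring
    rw [mul_zero, mul_zero, add_zero, add_zero, mul_one, add_assoc, this, k3, k2]
    abel
  · show -1 * 1 + uu * t2 + -(uu * uu) * t1 + (1 - t3) * uu * 1 + -((1 - t3) * uu * uu) * 1 = 0
    have e1 : -1 * 1 + uu * t2 + -(uu * uu) * t1 + (1 - t3) * uu * 1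
        + -((1 - t3) * uu * uu) * 1
        = -1 + (uu * t2 - uu * uu * t1) + (1 - t3) * (uu - uu * uu) := by noncomm_ring
    rw [e1, k3, k1']
    noncomm_ring
  · show -1 * 0 + uu * uu + -(uu * uu) * 1 + (1 - t3) * uu * 0 + -((1 - t3) * uu * uu) * 0 = 0
    noncomm_ring
  · show -1 * 0 + uu * 0 + -(uu * uu) * 0 + (1 - t3) * uu * uu + -((1 - t3) * uu * uu) * 1 = 0
    noncomm_ring

/-- Equality of two selected matrices, entry by entry. -/
theorem no_field {F : Type*} [Field F] (X : Matrix (Fin 5) (Fin 7) F)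
    (hX : ∀ (k : ℕ) (g : Fin k → Fin 5) (h : Fin k → Fin 7),
      Function.Injective g → (IsUnit (matD.submatrix g h) ↔ IsUnit (X.submatrix g h))) :
    False := by
  -- entries
  have hone : ∀ i j, (matD i j ≠ 0 ↔ X i j ≠ 0) := by
    intro i j
    have h := hX 1 ![i] ![j] (Function.injective_of_subsingleton _)
    have h1 : IsUnit (matD.submatrix ![i] ![j]) ↔ matD i j ≠ 0 := by
      constructor
      · intro hu h0
        apply sdet_ne_zero_of_isUnit hu
        apply sdet_eq_zero_of_row 0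
        intro b
        fin_cases b
        exact h0
      · intro hne
        exact isUnit_one_one hne rfl
    have h2 : IsUnit (X.submatrix ![i] ![j]) ↔ X i j ≠ 0 := by
      rw [Matrix.isUnit_iff_isUnit_det, isUnit_iff_ne_zero, Matrix.det_fin_one]
      rfl
    rw [← h1, h, h2]
  have hz : ∀ i j, matD i j = 0 → X i j = 0 := by
    intro i j h
    by_contra h'
    exact ((hone i j).2 h') h
  have hnz : ∀ i j, matD i j ≠ 0 → X i j ≠ 0 := fun i j h => (hone i j).1 h
  have n00 : X 0 0 ≠ 0 := hnz 0 0 (by rw [matD_eq]; exact one_ne_zero)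
  have n01 : X 0 1 ≠ 0 := hnz 0 1 (by rw [matD_eq]; exact one_ne_zero)
  have n02 : X 0 2 ≠ 0 := hnz 0 2 (by rw [matD_eq]; exact one_ne_zero)
  have n03 : X 0 3 ≠ 0 := hnz 0 3 (by rw [matD_eq]; exact one_ne_zero)
  have n04 : X 0 4 ≠ 0 := hnz 0 4 (by rw [matD_eq]; exact one_ne_zero)
  have n10 : X 1 0 ≠ 0 := hnz 1 0 (by rw [matD_eq]; exact one_ne_zero)
  have n20 : X 2 0 ≠ 0 := hnz 2 0 (by rw [matD_eq]; exact one_ne_zero)
  have n31 : X 3 1 ≠ 0 := hnz 3 1 (by rw [matD_eq]; exact one_ne_zero)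
  have n41 : X 4 1 ≠ 0 := hnz 4 1 (by rw [matD_eq]; exact one_ne_zero)
  have n15 : X 1 5 ≠ 0 := hnz 1 5 (by rw [matD_eq]; exact uu_ne)
  have n25 : X 2 5 ≠ 0 := hnz 2 5 (by rw [matD_eq]; exact one_ne_zero)
  have n46 : X 4 6 ≠ 0 := hnz 4 6 (by rw [matD_eq]; exact one_ne_zero)
  have z05 : X 0 5 = 0 := hz 0 5 (by rw [matD_eq]; rfl)
  have z06 : X 0 6 = 0 := hz 0 6 (by rw [matD_eq]; rfl)
  have z14 : X 1 4 = 0 := hz 1 4 (by rw [matD_eq]; rfl)
  have z16 : X 1 6 = 0 := hz 1 6 (by rw [matD_eq]; rfl)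
  have z24 : X 2 4 = 0 := hz 2 4 (by rw [matD_eq]; rfl)
  have z26 : X 2 6 = 0 := hz 2 6 (by rw [matD_eq]; rfl)
  have z30 : X 3 0 = 0 := hz 3 0 (by rw [matD_eq]; rfl)
  have z35 : X 3 5 = 0 := hz 3 5 (by rw [matD_eq]; rfl)
  have z40 : X 4 0 = 0 := hz 4 0 (by rw [matD_eq]; rfl)
  have z45 : X 4 5 = 0 := hz 4 5 (by rw [matD_eq]; rfl)
  -- scaling
  let ρ : Fin 5 → F := ![1, X 0 0 / X 1 0, X 0 0 / X 2 0, X 0 1 / X 3 1, X 0 1 / X 4 1]
  let κ : Fin 7 → F := ![(X 0 0)⁻¹, (X 0 1)⁻¹, (X 0 2)⁻¹, (X 0 3)⁻¹, (X 0 4)⁻¹,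
    X 2 0 / (X 0 0 * X 2 5), X 4 1 / (X 0 1 * X 4 6)]
  have hρ : ∀ i, ρ i ≠ 0 := by
    intro i
    fin_cases i <;> simp [ρ, n00, n10, n20, n01, n31, n41]
  have hκ : ∀ j, κ j ≠ 0 := by
    intro j
    fin_cases j <;> simp [κ, n00, n01, n02, n03, n04, n20, n25, n41, n46]
  obtain ⟨Y, hYdef⟩ : ∃ Y : Matrix (Fin 5) (Fin 7) F, Y = Matrix.of fun i j => ρ i * X i j * κ j :=
    ⟨_, rfl⟩
  have hY : ∀ (k : ℕ) (g : Fin k → Fin 5) (h : Fin k → Fin 7),
      Function.Injective g → (IsUnit (matD.submatrix g h) ↔ (Y.submatrix g h).det ≠ 0) := by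
    intro k g h hg
    rw [hX k g h hg, hYdef, ← isUnit_iff_ne_zero, ← Matrix.isUnit_iff_isUnit_det,
      isUnit_scale X ρ κ hρ hκ g h]
  have y : ∀ i j, Y i j = ρ i * X i j * κ j := by
    intro i j
    rw [hYdef]
    rfl
  have y00 : Y 0 0 = 1 := by rw [y]; simp [ρ, κ]; field_simp
  have y01 : Y 0 1 = 1 := by rw [y]; simp [ρ, κ]; field_simp
  have y02 : Y 0 2 = 1 := by rw [y]; simp [ρ, κ]; field_simp
  have y03 : Y 0 3 = 1 := by rw [y]; simp [ρ, κ]; field_simp
  have y04 : Y 0 4 = 1 := by rw [y]; simp [ρ, κ]; field_simp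
  have y10 : Y 1 0 = 1 := by rw [y]; simp [ρ, κ]; field_simp
  have y20 : Y 2 0 = 1 := by rw [y]; simp [ρ, κ]; field_simp
  have y31 : Y 3 1 = 1 := by rw [y]; simp [ρ, κ]; field_simp
  have y41 : Y 4 1 = 1 := by rw [y]; simp [ρ, κ]; field_simp
  have y25 : Y 2 5 = 1 := by rw [y]; simp [ρ, κ]; field_simp
  have y46 : Y 4 6 = 1 := by rw [y]; simp [ρ, κ]; field_simp
  have w05 : Y 0 5 = 0 := by rw [y, z05]; ring
  have w06 : Y 0 6 = 0 := by rw [y, z06]; ring
  have w14 : Y 1 4 = 0 := by rw [y, z14]; ring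
  have w16 : Y 1 6 = 0 := by rw [y, z16]; ring
  have w24 : Y 2 4 = 0 := by rw [y, z24]; ring
  have w26 : Y 2 6 = 0 := by rw [y, z26]; ring
  have w30 : Y 3 0 = 0 := by rw [y, z30]; ring
  have w35 : Y 3 5 = 0 := by rw [y, z35]; ring
  have w40 : Y 4 0 = 0 := by rw [y, z40]; ring
  have w45 : Y 4 5 = 0 := by rw [y, z45]; ring
  have y15 : Y 1 5 ≠ 0 := by
    rw [y]
    exact mul_ne_zero (mul_ne_zero (hρ 1) n15) (hκ 5)
  -- two by two determinants
  have two : ∀ (i1 i2 : Fin 5) (j1 j2 : Fin 7), i1 ≠ i2 →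
      ¬ IsUnit (matD.submatrix ![i1, i2] ![j1, j2]) →
      Y i1 j1 * Y i2 j2 - Y i1 j2 * Y i2 j1 = 0 := by
    intro i1 i2 j1 j2 hi hn
    have hinj : Function.Injective ![i1, i2] := by
      intro a b hab
      fin_cases a <;> fin_cases b <;> simp_all
    have := (hY 2 ![i1, i2] ![j1, j2] hinj).not.1 hn
    rw [not_not, Matrix.det_fin_two] at this
    exact this
  have twoc : ∀ (i1 i2 : Fin 5) (j1 j2 : Fin 7), i1 ≠ i2 → matD i1 j1 = matD i1 j2 →
      matD i2 j1 = matD i2 j2 → Y i1 j1 * Y i2 j2 - Y i1 j2 * Y i2 j1 = 0 := by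
    intro i1 i2 j1 j2 hi h1 h2
    apply two i1 i2 j1 j2 hi
    apply not_isUnit_col 0 1 (by decide)
    intro a
    fin_cases a
    · exact h1
    · exact h2
  have twor : ∀ (i1 i2 : Fin 5) (j1 j2 : Fin 7), i1 ≠ i2 → matD i1 j1 = matD i2 j1 →
      matD i1 j2 = matD i2 j2 → Y i1 j1 * Y i2 j2 - Y i1 j2 * Y i2 j1 = 0 := by
    intro i1 i2 j1 j2 hi h1 h2
    apply two i1 i2 j1 j2 hi
    apply not_isUnit_row 0 1 (by decide)
    intro a
    fin_cases a
    · exact h1
    · exact h2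
  have y11 : Y 1 1 = 1 := by
    have := twoc 0 1 0 1 (by decide) rfl rfl
    rw [y00, y01, y10] at this
    linear_combination this
  have y21 : Y 2 1 = 1 := by
    have := twoc 0 2 0 1 (by decide) rfl rfl
    rw [y00, y01, y20] at this
    linear_combination this
  have y32 : Y 3 2 = 1 := by
    have := twoc 0 3 1 2 (by decide) rfl rfl
    rw [y01, y02, y31] at this
    linear_combination this
  have y42 : Y 4 2 = 1 := by
    have := twoc 0 4 1 2 (by decide) rfl rfl
    rw [y01, y02, y41] at this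
    linear_combination this
  have y13 : Y 1 3 = Y 1 2 := by
    have := twoc 0 1 2 3 (by decide) rfl rfl
    rw [y02, y03] at this
    linear_combination this
  have y23 : Y 2 3 = Y 2 2 := by
    have := twoc 0 2 2 3 (by decide) rfl rfl
    rw [y02, y03] at this
    linear_combination this
  have y34' : Y 3 4 = Y 3 3 := by
    have := twoc 0 3 3 4 (by decide) rfl rfl
    rw [y03, y04] at this
    linear_combination this
  have y44' : Y 4 4 = Y 4 3 := by
    have := twoc 0 4 3 4 (by decide) rfl rfl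
    rw [y03, y04] at this
    linear_combination this
  have y43 : Y 4 3 = Y 2 2 := by
    have := twor 2 4 1 3 (by decide) rfl rfl
    rw [y21, y41, y23] at this
    linear_combination this
  have y33 : Y 3 3 = Y 1 2 := by
    have := twor 1 3 1 3 (by decide) rfl rfl
    rw [y11, y31, y13] at this
    linear_combination this
  have y34 : Y 3 4 = Y 1 2 := by rw [y34', y33]
  have y44 : Y 4 4 = Y 2 2 := by rw [y44', y43]
  -- the roots
  have r1 : Y 2 2 ^ 2 - Y 2 2 + 1 = 0 := by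
    have hinj : Function.Injective ![(0 : Fin 5), 2, 4] := by decide
    have hn : ¬ IsUnit (matD.submatrix ![(0 : Fin 5), 2, 4] ![(0 : Fin 7), 4, 2]) := by
      apply not_isUnit_three t1_sq
      rw [matD_eq]
      ext1 i j
      fin_cases i <;> fin_cases j <;> rfl
    have := (hY 3 _ _ hinj).not.1 hn
    rw [not_not, Matrix.det_fin_three] at this
    simp only [Matrix.submatrix_apply, Matrix.cons_val_zero, Matrix.cons_val_one,
      Matrix.cons_val] at this
    rw [y00, y04, y02, y20, w24, w40, y44, y42] at this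
    linear_combination -this
  have r2 : Y 1 2 ^ 2 - Y 1 2 + 1 = 0 := by
    have hinj : Function.Injective ![(0 : Fin 5), 1, 3] := by decide
    have hn : ¬ IsUnit (matD.submatrix ![(0 : Fin 5), 1, 3] ![(0 : Fin 7), 4, 2]) := by
      apply not_isUnit_three t2_sq
      rw [matD_eq]
      ext1 i j
      fin_cases i <;> fin_cases j <;> rfl
    have := (hY 3 _ _ hinj).not.1 hn
    rw [not_not, Matrix.det_fin_three] at this
    simp only [Matrix.submatrix_apply, Matrix.cons_val_zero, Matrix.cons_val_one,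
      Matrix.cons_val] at this
    rw [y00, y04, y02, y10, w14, w30, y34, y32] at this
    linear_combination -this
  have r12 : Y 2 2 ≠ Y 1 2 := by
    have hinj : Function.Injective ![(1 : Fin 5), 2] := by decide
    have := (hY 2 ![(1 : Fin 5), 2] ![(0 : Fin 7), 2] hinj).1 isUnit_two
    rw [Matrix.det_fin_two] at this
    simp only [Matrix.submatrix_apply, Matrix.cons_val_zero, Matrix.cons_val_one] at this
    rw [y10, y20] at this
    intro h
    apply this
    rw [h]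
    ring
  have r3 : (Y 1 5 - Y 3 6) * (Y 2 2 - Y 1 2) = 0 := by
    have hinj : Function.Injective ![(1 : Fin 5), 2, 3, 4] := by decide
    have hn : ¬ IsUnit (matD.submatrix ![(1 : Fin 5), 2, 3, 4] ![(1 : Fin 7), 3, 5, 6]) := by
      apply not_isUnit_four
      rw [matD_eq]
      ext1 i j
      fin_cases i <;> fin_cases j <;> rfl
    have := (hY 4 _ _ hinj).not.1 hn
    rw [not_not] at this
    have hM : Y.submatrix ![(1 : Fin 5), 2, 3, 4] ![(1 : Fin 7), 3, 5, 6]
        = !![1, Y 1 2, Y 1 5, 0; 1, Y 2 2, 1, 0; 1, Y 1 2, 0, Y 3 6; 1, Y 2 2, 0, 1] := by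
      ext1 i j
      fin_cases i <;> fin_cases j <;>
        simp [y11, y21, y31, y41, y13, y23, y33, y43, y25, y46, w16, w26, w35, w45]
    rw [hM, det4] at this
    linear_combination -this
  have r4 : (1 - Y 1 5) * (Y 1 2 - Y 3 6 * Y 2 2)
      - (Y 1 2 - Y 1 5 * Y 2 2) * (Y 1 2 - Y 3 6 * Y 2 2) - (1 - Y 1 5) * (1 - Y 3 6) = 0 := by
    have hinj : Function.Injective ![(0 : Fin 5), 1, 2, 3, 4] := by decide
    have hn : ¬ IsUnit (matD.submatrix ![(0 : Fin 5), 1, 2, 3, 4] ![(0 : Fin 7), 4, 2, 5, 6]) := by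
      apply not_isUnit_five
      rw [matD_eq]
      ext1 i j
      fin_cases i <;> fin_cases j <;> rfl
    have := (hY 5 _ _ hinj).not.1 hn
    rw [not_not] at this
    have hM : Y.submatrix ![(0 : Fin 5), 1, 2, 3, 4] ![(0 : Fin 7), 4, 2, 5, 6]
        = !![1, 1, 1, 0, 0; 1, 0, Y 1 2, Y 1 5, 0; 1, 0, Y 2 2, 1, 0;
          0, Y 1 2, 1, 0, Y 3 6; 0, Y 2 2, 1, 0, 1] := by
      ext1 i j
      fin_cases i <;> fin_cases j <;>
        simp [y00, y04, y02, w05, w06, y10, w14, w16, y20, w24, y25, w26, w30, y34, y32, w35,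
          w40, y44, y42, w45, y46]
    rw [hM, det5] at this
    linear_combination -this
  exact three_roots (Y 2 2) (Y 1 2) (Y 1 5) (Y 3 6) r12 y15 r1 r2 r3 r4

end Pool.Agent.QU
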