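import Mathlib

/-!
# Study determinant of quaternion matrices

`chi` is the standard embedding of the real quaternions in the `2 × 2` complex matrices, `cx M` the
complex matrix of a quaternion matrix `M`, and `sdet M` its determinant (the Study determinant).
-/

set_option autoImplicit false

namespace Pool.Agent.QU

open Matrix

/-- The real quaternions. -/
abbrev HH : Type := Quaternion ℝ

/-- The standard embedding `ℍ → M₂(ℂ)`. -/
noncomputable def chi (x : HH) : Matrix (Fin 2) (Fin 2) ℂ :=
  !![Complex.mk x.re x.imI, Complex.mk x.imJ x.imK;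
     Complex.mk (-x.imJ) x.imK, Complex.mk x.re (-x.imI)]

lemma chi_mul (x y : HH) : chi (x * y) = chi x * chi y := by
  ext i j
  fin_cases i <;> fin_cases j <;>
    simp [chi, Matrix.mul_apply, Fin.sum_univ_two, Complex.ext_iff] <;>
    constructor <;> ring

lemma chi_add (x y : HH) : chi (x + y) = chi x + chi y := by
  ext i j
  fin_cases i <;> fin_cases j <;>
    simp [chi, Complex.ext_iff] <;> ring

lemma chi_zero : chi 0 = 0 := by
  ext i j
  fin_cases i <;> fin_cases j <;>
    simp [chi, Complex.ext_iff, Quaternion.re_zero, Quaternion.imI_zero, Quaternion.imJ_zero,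
      Quaternion.imK_zero]

lemma chi_one : chi 1 = 1 := by
  ext i j
  fin_cases i <;> fin_cases j <;>
    simp [chi, Complex.ext_iff, Quaternion.re_one, Quaternion.imI_one, Quaternion.imJ_one,
      Quaternion.imK_one]

lemma chi_det (x : HH) :
    (chi x).det = ((x.re ^ 2 + x.imI ^ 2 + x.imJ ^ 2 + x.imK ^ 2 : ℝ) : ℂ) := by
  rw [Matrix.det_fin_two]
  simp only [chi, Matrix.of_apply, Matrix.cons_val', Matrix.cons_val_zero, Matrix.cons_val_one,
    Matrix.cons_val_fin_one]
  apply Complex.ext
  · simp only [Complex.sub_re, Complex.mul_re, Complex.ofReal_re]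
    ring
  · simp only [Complex.sub_im, Complex.mul_im, Complex.ofReal_im]
    ring

/-- `chi` as a ring homomorphism. -/
noncomputable def chiHom : HH →+* Matrix (Fin 2) (Fin 2) ℂ where
  toFun := chi
  map_one' := chi_one
  map_mul' := chi_mul
  map_zero' := chi_zero
  map_add' := chi_add

lemma chi_sub (x y : HH) : chi (x - y) = chi x - chi y := chiHom.map_sub x y

lemma chi_sum {ι : Type*} (s : Finset ι) (f : ι → HH) : chi (∑ i ∈ s, f i) = ∑ i ∈ s, chi (f i) :=
  map_sum chiHom f s

lemma chi_injective : Function.Injective chi := by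
  intro x y h
  have h00 := congrFun (congrFun h 0) 0
  have h01 := congrFun (congrFun h 0) 1
  simp [chi, Complex.ext_iff] at h00 h01
  ext
  · exact h00.1
  · exact h00.2
  · exact h01.1
  · exact h01.2

section
variable {l m n : Type*}

/-- The complex matrix of a quaternion matrix. -/
noncomputable def cx (M : Matrix m n HH) : Matrix (m × Fin 2) (n × Fin 2) ℂ :=
  Matrix.of fun p q => chi (M p.1 q.1) p.2 q.2

@[simp] lemma cx_apply (M : Matrix m n HH) (p : m × Fin 2) (q : n × Fin 2) :
    cx M p q = chi (M p.1 q.1) p.2 q.2 := rfl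

lemma cx_mul [Fintype m] (M : Matrix l m HH) (N : Matrix m n HH) : cx (M * N) = cx M * cx N := by
  ext p q
  simp only [cx_apply, Matrix.mul_apply, chi_sum, chi_mul, Matrix.sum_apply]
  rw [Fintype.sum_prod_type]

lemma cx_one [DecidableEq m] : cx (1 : Matrix m m HH) = 1 := by
  ext p q
  rcases p with ⟨p1, p2⟩
  rcases q with ⟨q1, q2⟩
  by_cases h : p1 = q1
  · subst h
    simp [Matrix.one_apply, chi_one]
  · simp [Matrix.one_apply, h, chi_zero]

lemma cx_zero : cx (0 : Matrix m n HH) = 0 := by
  ext p q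
  simp [chi_zero]

lemma cx_sub (M N : Matrix m n HH) : cx (M - N) = cx M - cx N := by
  ext p q
  simp [chi_sub]

lemma cx_injective : Function.Injective (cx : Matrix m n HH → _) := by
  intro M N h
  ext1 p q
  apply chi_injective
  ext a b
  exact congrFun (congrFun h (p, a)) (q, b)

end

section
variable {m n : Type*} [Fintype m] [DecidableEq m] [Fintype n] [DecidableEq n]

/-- The Study determinant. -/
noncomputable def sdet (M : Matrix m m HH) : ℂ := (cx M).det

lemma sdet_mul (M N : Matrix m m HH) : sdet (M * N) = sdet M * sdet N := by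
  rw [sdet, cx_mul, Matrix.det_mul, sdet, sdet]

lemma sdet_one : sdet (1 : Matrix m m HH) = 1 := by
  rw [sdet, cx_one, Matrix.det_one]

lemma sdet_ne_zero_of_isUnit {M : Matrix m m HH} (h : IsUnit M) : sdet M ≠ 0 := by
  obtain ⟨u, rfl⟩ := h
  intro h0
  have h1 : sdet ((u : Matrix m m HH) * (↑u⁻¹ : Matrix m m HH)) = 1 := by
    rw [Units.mul_inv, sdet_one]
  rw [sdet_mul, h0, zero_mul] at h1
  exact zero_ne_one h1

omit [Fintype m] [DecidableEq m] [Fintype n] [DecidableEq n] in
lemma cx_submatrix {l k : Type*} (M : Matrix m n HH) (e1 : l → m) (e2 : k → n) :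
    cx (M.submatrix e1 e2) = (cx M).submatrix (Prod.map e1 id) (Prod.map e2 id) := by
  ext p q
  simp

/-- The Study determinant does not change when rows and columns are permuted. -/
lemma sdet_perm (M : Matrix m m HH) (σ : Equiv.Perm m) : sdet (M.submatrix id σ) = sdet M := by
  unfold sdet
  rw [cx_submatrix]
  have h : (cx M).submatrix (Prod.map id id) (Prod.map σ id)
      = (cx M).submatrix id (Equiv.prodCongrLeft (fun _ : Fin 2 => σ)) := by
    ext p q
    simp [Equiv.prodCongrLeft]
  rw [h, Matrix.det_permute', Equiv.Perm.sign_prodCongrLeft]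
  simp

lemma sdet_submatrix_equiv (M : Matrix m m HH) (e1 e2 : n ≃ m) :
    sdet (M.submatrix e1 e2) = sdet M := by
  have h : M.submatrix e1 e2 = (M.submatrix id (e1.symm.trans e2)).submatrix e1 e1 := by
    ext1 p q
    simp
  have h2 : sdet ((M.submatrix id (e1.symm.trans e2)).submatrix e1 e1)
      = sdet (M.submatrix id (e1.symm.trans e2)) := by
    unfold sdet
    rw [cx_submatrix]
    exact Matrix.det_submatrix_equiv_self (e1.prodCongr (Equiv.refl (Fin 2)))
      (cx (M.submatrix id (e1.symm.trans e2)))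
  rw [h, h2]
  exact sdet_perm M (e1.symm.trans e2)

lemma sdet_eq_zero_of_row {M : Matrix m m HH} (i : m) (h : ∀ j, M i j = 0) : sdet M = 0 := by
  unfold sdet
  apply Matrix.det_eq_zero_of_row_eq_zero (i, 0)
  intro q
  simp [h, chi_zero]

lemma sdet_eq_zero_of_row_eq {M : Matrix m m HH} {i i' : m} (hi : i ≠ i')
    (h : ∀ j, M i j = M i' j) : sdet M = 0 := by
  unfold sdet
  apply Matrix.det_zero_of_row_eq (i := (i, 0)) (j := (i', 0))
  · intro h'
    exact hi (Prod.ext_iff.1 h').1
  · funext q
    simp [h]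

lemma sdet_fromBlocks (A : Matrix m m HH) (B : Matrix m n HH) (D : Matrix n n HH) :
    sdet (Matrix.fromBlocks A B 0 D) = sdet A * sdet D := by
  unfold sdet
  have h : (cx (Matrix.fromBlocks A B 0 D)).submatrix (Equiv.sumProdDistrib m n (Fin 2)).symm
      (Equiv.sumProdDistrib m n (Fin 2)).symm = Matrix.fromBlocks (cx A) (cx B) 0 (cx D) := by
    ext p q
    rcases p with ⟨p1, p2⟩ | ⟨p1, p2⟩ <;> rcases q with ⟨q1, q2⟩ | ⟨q1, q2⟩ <;>
      simp [chi_zero]
  rw [← Matrix.det_submatrix_equiv_self (Equiv.sumProdDistrib m n (Fin 2)).symm, h,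
    Matrix.det_fromBlocks_zero₂₁]

lemma sdet_fromBlocks' (A : Matrix m m HH) (C : Matrix n m HH) (D : Matrix n n HH) :
    sdet (Matrix.fromBlocks A 0 C D) = sdet A * sdet D := by
  unfold sdet
  have h : (cx (Matrix.fromBlocks A 0 C D)).submatrix (Equiv.sumProdDistrib m n (Fin 2)).symm
      (Equiv.sumProdDistrib m n (Fin 2)).symm = Matrix.fromBlocks (cx A) 0 (cx C) (cx D) := by
    ext p q
    rcases p with ⟨p1, p2⟩ | ⟨p1, p2⟩ <;> rcases q with ⟨q1, q2⟩ | ⟨q1, q2⟩ <;>
      simp [chi_zero]
  rw [← Matrix.det_submatrix_equiv_self (Equiv.sumProdDistrib m n (Fin 2)).symm, h,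
    Matrix.det_fromBlocks_zero₁₂]

/-- Schur complement formula. -/
lemma sdet_schur (A A' : Matrix m m HH) (hA : A' * A = 1) (B : Matrix m n HH)
    (C : Matrix n m HH) (D : Matrix n n HH) :
    sdet (Matrix.fromBlocks A B C D) = sdet A * sdet (D - C * A' * B) := by
  have h : Matrix.fromBlocks A B C D
      = Matrix.fromBlocks 1 0 (C * A') 1 * Matrix.fromBlocks A B 0 (D - C * A' * B) := by
    rw [Matrix.fromBlocks_multiply]
    simp only [Matrix.one_mul, Matrix.zero_mul, add_zero, Matrix.mul_assoc, hA, Matrix.mul_one]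
    congr 1
    rw [add_sub_cancel]
  rw [h, sdet_mul, sdet_fromBlocks', sdet_fromBlocks, sdet_one, sdet_one, one_mul, one_mul]

/-- If the Study determinant is not zero then the matrix is invertible. -/
lemma isUnit_of_sdet_ne_zero {M : Matrix m m HH} (h : sdet M ≠ 0) : IsUnit M := by
  have hinj : ∀ N : Matrix m m HH, M * N = 0 → N = 0 := by
    intro N hN
    have h1 : cx M * cx N = 0 := by rw [← cx_mul, hN, cx_zero]
    have h2 : cx N = 0 := by
      have hu : IsUnit (cx M).det := isUnit_iff_ne_zero.2 h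
      calc cx N = (cx M)⁻¹ * (cx M * cx N) := by
            rw [← Matrix.mul_assoc, Matrix.nonsing_inv_mul _ hu, Matrix.one_mul]
        _ = 0 := by rw [h1, Matrix.mul_zero]
    apply cx_injective
    rw [h2, cx_zero]
  let L : Matrix m m HH →ₗ[ℝ] Matrix m m HH :=
    { toFun := fun N => M * N
      map_add' := fun N N' => Matrix.mul_add M N N'
      map_smul' := fun c N => by simp }
  have hL : Function.Injective L := by
    rw [injective_iff_map_eq_zero]
    intro N hN
    exact hinj N hN
  have hs : Function.Surjective L := LinearMap.injective_iff_surjective.1 hL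
  obtain ⟨N, hN⟩ := hs 1
  have hMN : M * N = 1 := hN
  have hNM : N * M = 1 := by
    have h3 : M * (N * M - 1) = 0 := by
      rw [Matrix.mul_sub, ← Matrix.mul_assoc, hMN, Matrix.one_mul, Matrix.mul_one, sub_self]
    exact sub_eq_zero.1 (hinj _ h3)
  exact ⟨⟨M, N, hMN, hNM⟩, rfl⟩

end

/-- Pivoting on an entry of norm one keeps the Study determinant. -/
lemma sdet_pivot {k : ℕ} (M : Matrix (Fin (k + 1)) (Fin (k + 1)) HH) (i j : Fin (k + 1))
    (hu : star (M i j) * M i j = 1) :
    sdet M = sdet (Matrix.of fun (p q : Fin k) =>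
      M (i.succAbove p) (j.succAbove q)
        - M (i.succAbove p) j * star (M i j) * M i (j.succAbove q)) := by
  let e (i : Fin (k + 1)) : Unit ⊕ Fin k ≃ Fin (k + 1) :=
    (Equiv.sumComm _ _).trans ((Equiv.optionEquivSumPUnit (Fin k)).symm.trans
      (finSuccEquiv' i).symm)
  have e_inl : ∀ (i : Fin (k + 1)) (a : Unit), e i (Sum.inl a) = i := by
    intro i a
    simp [e]
  have e_inr : ∀ (i : Fin (k + 1)) (a : Fin k), e i (Sum.inr a) = i.succAbove a := by
    intro i a
    simp [e]
  have h1 : M.submatrix (e i) (e j) = Matrix.fromBlocks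
      (Matrix.of fun (_ _ : Unit) => M i j)
      (Matrix.of fun (_ : Unit) (q : Fin k) => M i (j.succAbove q))
      (Matrix.of fun (p : Fin k) (_ : Unit) => M (i.succAbove p) j)
      (Matrix.of fun (p q : Fin k) => M (i.succAbove p) (j.succAbove q)) := by
    ext1 p q
    rcases p with p | p <;> rcases q with q | q <;> simp [e_inl, e_inr]
  have hA : (Matrix.of fun (_ _ : Unit) => star (M i j)) * (Matrix.of fun (_ _ : Unit) => M i j)
      = (1 : Matrix Unit Unit HH) := by
    ext1 p q
    rw [Matrix.mul_apply]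
    simp only [Matrix.of_apply, Finset.univ_unique, Finset.sum_singleton, hu]
    rfl
  have hS : sdet (Matrix.of fun (_ _ : Unit) => M i j) = 1 := by
    have hn : (M i j).re ^ 2 + (M i j).imI ^ 2 + (M i j).imJ ^ 2 + (M i j).imK ^ 2 = 1 := by
      have := congrArg (fun x : HH => x.re) hu
      simp [Quaternion.re_one] at this
      linarith [this]
    have h2 : (cx (Matrix.of fun (_ _ : Unit) => M i j)).submatrix
        (Equiv.punitProd (Fin 2)).symm (Equiv.punitProd (Fin 2)).symm = chi (M i j) := by
      ext p q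
      simp
    unfold sdet
    rw [← Matrix.det_submatrix_equiv_self (Equiv.punitProd (Fin 2)).symm, h2, chi_det, hn]
    simp
  rw [← sdet_submatrix_equiv M (e i) (e j), h1, sdet_schur _ _ hA, hS, one_mul]
  congr 1
  ext1 p q
  simp [Matrix.mul_apply]

end Pool.Agent.QU
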